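import Pool.Agent.H28.Wheel

set_option autoImplicit false

open Set Pool.Agent.H28 Pool.Agent.H28.QG

namespace Pool.Agent.Results.MP_159dfd_an.Bridge

theorem result : ∃ (n m : ℕ) (s t : Fin m → Fin n) (L : Fin m → ℝ), (∀ e, 0 < L e) ∧
    Conn s t univ ∧ (∃ e, ¬ Conn s t {e}ᶜ) ∧ (Hot s t L 0).Infinite :=
  ⟨6, 9, Wheel.s, Wheel.t, Wheel.L, Wheel.Lp, Wheel.conn, ⟨8, Wheel.bridge⟩, Wheel.inf⟩

end Pool.Agent.Results.MP_159dfd_an.Bridge
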